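import Pool.Agent.Helper13.TR.StB

/-!
# Project TR: zero- and one-dimensional cuts
-/

set_option autoImplicit false

namespace Pool.Agent.Helper31.TR

open Set Topology Pool.Agent.Helper13.TR

theorem hCA (hCUT : StCUT) (hCLO : StCLO) (hP2L : StP2L) (hMON : StMON) : StCA := by
  intro W Y _ _ _ _ hHM s q he K hK hfull σ hσ
  refine hCUT W Y q K 2 σ hK.1 ?_ ?_
  · intro y hy
    refine hP2L W Y hHM s q he y (hfull y hy) ?_
    exact ((hMON W).2.2.2.2.1 (q ⁻¹' {y}) (q ⁻¹' K) 2
      (preimage_mono (singleton_subset_iff.2 hy))).1 hσ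
  · intro y hy O hO hyO
    obtain ⟨E, F, hE, hF, h1, h2, h3, h4⟩ := hCLO Y K hK y hy O hO hyO
    refine ⟨E, F, hE, hF, h1, h2, h3, ?_⟩
    intro M hM hMs
    rw [h4] at hMs
    have h5 : M = ∅ := subset_empty_iff.1 hMs
    subst h5
    rw [preimage_empty]
    exact (hMON W).2.2.2.2.2 3

private theorem z1_compact {Z : Type} [TopologicalSpace Z] {K : Set Z} (h : Z1 K) : IsCompact K := by
  induction h with
  | base K hK _ => exact hK
  | union K₁ K₂ _ _ _ h1 h2 => exact h1.union h2

theorem hCB (hCUT : StCUT) (hCA : StCA) (hP1L : StP1L) (hMV : StMV) (hMON : StMON) : StCB := by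
  intro W Y _ _ _ _ hHM s q he K hK
  induction hK with
  | base K hK h =>
    intro hfull σ hσ
    refine hCUT W Y q K 1 σ hK ?_ ?_
    · intro y hy
      refine hP1L W hHM (q ⁻¹' {y}) s (isClosed_singleton.preimage q.continuous) ?_ ?_
      · intro a ha b hb hab
        apply he.injective
        have ha' : q a = y := ha
        have hb' : q b = y := hb
        show (s a, q a) = (s b, q b)
        rw [hab, ha', hb']
      · exact ((hMON W).2.2.2.2.1 (q ⁻¹' {y}) (q ⁻¹' K) 1
          (preimage_mono (singleton_subset_iff.2 hy))).1 hσ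
    · intro y hy O hO hyO
      obtain ⟨E, F, hE, hF, h1, h2, h3, h4⟩ := h y hy O hO hyO
      refine ⟨E, F, hE, hF, h1, h2, h3, ?_⟩
      intro M hM hMs
      refine hCA W Y hHM s q he M ⟨h4.1.of_isClosed_subset hM hMs, ?_⟩ ?_
      · intro t ht hp
        exact h4.2 t (ht.trans hMs) hp
      · intro y hy
        apply hfull y
        rw [← h1]
        exact Or.inl (hMs hy).1
  | union K₁ K₂ h₁ h₂ h₃ ih₁ ih₂ =>
    intro hfull σ hσ
    have i1 := ih₁ (fun y hy => hfull y (Or.inl hy))
    have i2 := ih₂ (fun y hy => hfull y (Or.inr hy))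
    have c1 : IsClosed (q ⁻¹' K₁) := (z1_compact h₁).isClosed.preimage q.continuous
    have c2 : IsClosed (q ⁻¹' K₂) := (z1_compact h₂).isClosed.preimage q.continuous
    have m := (hMON W).2.2.2.2.1
    rw [preimage_union]
    refine (hMV W (q ⁻¹' K₁) (q ⁻¹' K₂) c1 c2 1).2.2.2.2 ?_ σ (i1 ?_) (i2 ?_)
    · rw [← preimage_inter]
      exact hCA W Y hHM s q he (K₁ ∩ K₂) h₃ (fun y hy => hfull y (Or.inl hy.1))
    · exact (m _ _ 1 (preimage_mono subset_union_left)).1 hσ
    · exact (m _ _ 1 (preimage_mono subset_union_right)).1 hσ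

end Pool.Agent.Helper31.TR
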